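import Mathlib

set_option autoImplicit false
set_option linter.unusedSectionVars false

/-!
Core of the construction of a strong theon without Borel strong version: combinatorics of binary
sequences and the impossibility argument.
-/

namespace Pool.Agent.H97.Theon

open MeasureTheory Filter Set

/-- Binary sequences. -/
abbrev Om : Type := ℕ → ZMod 2

/-- Two sequences agree on the digits with index `< v`. -/
def Agree (v : ℕ∞) (y y' : Om) : Prop := ∀ i : ℕ, (i : ℕ∞) < v → y i = y' i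

/-- The number of initial digits on which two sequences agree. -/
noncomputable def agr (y y' : Om) : ℕ∞ := ⨅ (i : ℕ) (_ : y i ≠ y' i), (i : ℕ∞)

theorem le_agr {v : ℕ∞} {y y' : Om} : v ≤ agr y y' ↔ Agree v y y' := by
  simp only [agr, Agree, le_iInf_iff]
  constructor
  · intro h i hi
    by_contra hne
    exact absurd (h i hne) (not_le.mpr hi)
  · intro h i hne
    by_contra hi
    exact hne (h i (not_le.mp hi))

theorem Agree.refl (v : ℕ∞) (y : Om) : Agree v y y := fun _ _ => rfl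

theorem Agree.symm {v : ℕ∞} {y z : Om} (h : Agree v y z) : Agree v z y :=
  fun i hi => (h i hi).symm

theorem Agree.trans {v : ℕ∞} {x y z : Om} (h : Agree v x y) (h' : Agree v y z) : Agree v x z :=
  fun i hi => (h i hi).trans (h' i hi)

theorem Agree.mono {v w : ℕ∞} (hvw : v ≤ w) {x y : Om} (h : Agree w x y) : Agree v x y :=
  fun i hi => h i (lt_of_lt_of_le hi hvw)

theorem Agree.add {v : ℕ∞} {x y x' y' : Om} (h : Agree v x y) (h' : Agree v x' y') :
    Agree v (x + x') (y + y') := by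
  intro i hi
  simp only [Pi.add_apply, h i hi, h' i hi]

theorem add_self (y : Om) : y + y = 0 := by
  funext i
  exact CharTwo.add_self_eq_zero _

/-- The sequence with a single one, in position `j`. -/
def g (j : ℕ) : Om := fun i => if i = j then 1 else 0

/-- Shift by `k` places. -/
def sh (k : ℕ) (y : Om) : Om := fun i => if k ≤ i then y (i - k) else 0

theorem sh_add (k : ℕ) (y z : Om) : sh k (y + z) = sh k y + sh k z := by
  funext i
  simp only [sh, Pi.add_apply]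
  split_ifs <;> simp

theorem sh_sh (k l : ℕ) (y : Om) : sh k (sh l y) = sh (k + l) y := by
  funext i
  simp only [sh]
  by_cases h : k + l ≤ i
  · rw [if_pos (by omega), if_pos (by omega), if_pos h]
    congr 1
    omega
  · by_cases h1 : k ≤ i
    · rw [if_pos h1, if_neg (by omega), if_neg h]
    · rw [if_neg h1, if_neg h]

/-- Multiplication by `1 + t`. -/
def M (y : Om) : Om := y + sh 1 y

theorem M_add (y z : Om) : M (y + z) = M y + M z := by
  simp only [M, sh_add]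
  abel

theorem M_iter (m : ℕ) (y : Om) : M^[2 ^ m] y = y + sh (2 ^ m) y := by
  induction m generalizing y with
  | zero => simp [M]
  | succ m ih =>
    rw [pow_succ, mul_two, Function.iterate_add_apply, ih, ih, sh_add, sh_sh]
    have h := add_self (sh (2 ^ m) y)
    calc y + sh (2 ^ m) y + (sh (2 ^ m) y + sh (2 ^ m + 2 ^ m) y)
        = y + (sh (2 ^ m) y + sh (2 ^ m) y) + sh (2 ^ m + 2 ^ m) y := by abel
      _ = _ := by rw [h, add_zero]

theorem sh_g (k j : ℕ) : sh k (g j) = g (k + j) := by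
  funext i
  simp only [sh, g]
  by_cases h : k ≤ i
  · rw [if_pos h]
    by_cases h2 : i = k + j
    · rw [if_pos h2, if_pos (by omega)]
    · rw [if_neg h2, if_neg (by omega)]
  · rw [if_neg h, if_neg (by omega)]

theorem M_iter_g (m : ℕ) : M^[2 ^ m] (g 0) = g 0 + g (2 ^ m) := by
  rw [M_iter, sh_g, Nat.add_zero]

theorem Agree.sh {v : ℕ∞} {x y : Om} (k : ℕ) (h : Agree v x y) :
    Agree v (sh k x) (Theon.sh k y) := by
  intro i hi
  simp only [Theon.sh]
  split_ifs with hk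
  · exact h (i - k) (lt_of_le_of_lt (by exact_mod_cast Nat.sub_le i k) hi)
  · rfl

theorem Agree.M {v : ℕ∞} {x y : Om} (h : Agree v x y) : Agree v (M x) (Theon.M y) :=
  h.add (h.sh 1)

/-- The three rules. -/
def h (r : Fin 3) (y : Om) : Om :=
  if r = 0 then y else if r = 1 then y + g 0 else M y

theorem h_zero (y : Om) : h 0 y = y := rfl
theorem h_one (y : Om) : h 1 y = y + g 0 := rfl
theorem h_two (y : Om) : h 2 y = M y := rfl

theorem Agree.h {v : ℕ∞} {x y : Om} (r : Fin 3) (hxy : Agree v x y) :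
    Agree v (h r x) (Theon.h r y) := by
  unfold Theon.h
  split_ifs
  · exact hxy
  · exact hxy.add (Agree.refl _ _)
  · exact hxy.M

/-- Triples of sequences. -/
abbrev Tr : Type := Om × Om × Om

/-- The defect of a triple with respect to a rule. -/
noncomputable def D (r : Fin 3) (t : Tr) : ℕ∞ := agr (t.1 + h r t.2.1) t.2.2

theorem le_D {v : ℕ∞} {r : Fin 3} {t : Tr} : v ≤ D r t ↔ Agree v (t.1 + h r t.2.1) t.2.2 := le_agr

/-- Sums of initial digits. -/
def S (n : ℕ) (y : Om) : ZMod 2 := ∑ i ∈ Finset.range n, y i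

/-- The principal ultrafilter at a natural number, and the fixed nonprincipal one at `⊤`. -/
noncomputable def U (v : ℕ∞) : Ultrafilter ℕ := by
  classical
  exact if v = ⊤ then hyperfilter ℕ else pure v.toNat

/-- Parity of the sum of the digits of index less than `v`, for `v = ⊤` a limit along an ultrafilter. -/
def fP (v : ℕ∞) (y : Om) : Prop := ∀ᶠ n in (U v : Filter ℕ), S n y = 1

theorem U_ge {n : ℕ} {v : ℕ∞} (hv : (n : ℕ∞) ≤ v) : ∀ᶠ m in (U v : Filter ℕ), n ≤ m := by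
  unfold U
  split_ifs with h
  · have : (hyperfilter ℕ : Filter ℕ) ≤ atTop := by
      rw [← Nat.cofinite_eq_atTop]; exact hyperfilter_le_cofinite
    exact this (eventually_ge_atTop n)
  · obtain ⟨m, rfl⟩ := ENat.ne_top_iff_exists.mp h
    have : n ≤ m := by exact_mod_cast hv
    simpa using this

theorem fP_congr {v : ℕ∞} {y y' : Om} (h : Agree v y y') : fP v y ↔ fP v y' := by
  unfold fP
  have : ∀ᶠ n in (U v : Filter ℕ), S n y = S n y' := by
    unfold U
    split_ifs with hv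
    · have : y = y' := by
        funext i
        exact h i (by rw [hv]; exact WithTop.coe_lt_top i)
      rw [this]
      exact Eventually.of_forall fun _ => rfl
    · obtain ⟨m, rfl⟩ := ENat.ne_top_iff_exists.mp hv
      have : S m y = S m y' := by
        refine Finset.sum_congr rfl fun i hi => ?_
        exact h i (by exact_mod_cast Finset.mem_range.mp hi)
      simpa using this
  refine eventually_congr ?_
  filter_upwards [this] with n hn
  rw [hn]

theorem S_add (n : ℕ) (y z : Om) : S n (y + z) = S n y + S n z := by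
  simp [S, Finset.sum_add_distrib]

theorem S_g {n j : ℕ} (h : j < n) : S n (g j) = 1 := by
  simp [S, g, h]

theorem zmod2_cases (a : ZMod 2) : a + 1 = 1 ↔ ¬ a = 1 := by
  revert a; decide

theorem fP_add_g0 {v : ℕ∞} (hv : 1 ≤ v) (y : Om) : fP v (y + g 0) ↔ ¬ fP v y := by
  unfold fP
  rw [← Ultrafilter.eventually_not]
  refine eventually_congr ?_
  filter_upwards [U_ge (n := 1) (by exact_mod_cast hv)] with n hn
  rw [S_add, S_g (by omega)]
  exact zmod2_cases _

theorem fP_add_g0_g {v : ℕ∞} {j : ℕ} (hv : ((j + 1 : ℕ) : ℕ∞) ≤ v) (y : Om) :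
    fP v (y + (g 0 + g j)) ↔ fP v y := by
  unfold fP
  refine eventually_congr ?_
  filter_upwards [U_ge hv] with n hn
  rw [S_add, S_add, S_g (by omega), S_g (by omega)]
  have : (1 : ZMod 2) + 1 = 0 := by decide
  rw [this, add_zero]


/-! ### Measures -/

/-- The triple of a rule and a pair of sequences: the rule holds exactly. -/
def tri (r : Fin 3) (a : Om × Om) : Tr := (a.1, a.2, a.1 + h r a.2)

/-- Triples with all entries in a set. -/
def In (A : Set Om) : Set Tr := {t | t.1 ∈ A ∧ t.2.1 ∈ A ∧ t.2.2 ∈ A}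

/-- Image of a triple under three maps, depending on a type. -/
def im (e : Bool → Fin 3 → Om → Om) (i : Bool) (t : Tr) : Tr := (e i 0 t.1, e i 1 t.2.1, e i 2 t.2.2)

/-- The data of a Borel strong theon, after fixing generic constants. -/
structure Sys (μ : Measure Om) where
  A : Set Om
  K : Bool → Fin 3 → Fin 3 → Tr → Tr → Prop
  P : Bool → Fin 3 → Tr → Om → Prop
  J : Type
  F : Filter J
  e : J → Bool → Fin 3 → Om → Om
  A_meas : MeasurableSet A
  A_ae : ∀ᵐ y ∂μ, y ∈ A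
  K_meas : ∀ i r r', MeasurableSet {q : Tr × Tr | K i r r' q.1 q.2}
  P_meas : ∀ i r t, MeasurableSet {b | P i r t b}
  K_ae : ∀ i r r', ∀ᵐ q ∂((μ.prod (μ.prod μ)).prod (μ.prod (μ.prod μ))),
    (K i r r' q.1 q.2 ↔ D r q.1 ≤ D r' q.2)
  neBot : F.NeBot
  hK : ∀ i r r' t t', t ∈ In A → t' ∈ In A →
    ∀ᶠ j in F, (K i r r' t t' ↔ D r (im (e j) i t) ≤ D r' (im (e j) (!i) t'))
  hP : ∀ i r t b, t ∈ In A → b ∈ A →
    ∀ᶠ j in F, (P i r t b ↔ fP (D r (im (e j) i t)) (e j (!i) 1 b))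

theorem h_meas (r : Fin 3) : Measurable (h r) := by
  have hs : Measurable (sh 1) := by
    rw [measurable_pi_iff]
    intro i
    unfold sh
    split_ifs
    · exact measurable_pi_apply _
    · exact measurable_const
  unfold h
  split_ifs
  · exact measurable_id
  · exact measurable_id.add_const _
  · exact measurable_id.add hs

theorem tri_meas (r : Fin 3) : Measurable (tri r) :=
  measurable_fst.prodMk (measurable_snd.prodMk
    (measurable_fst.add ((h_meas r).comp measurable_snd)))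

theorem exists_of_ae {α : Type*} [MeasurableSpace α] {μ : Measure α} {s : Set α} {p : α → Prop}
    (hs : μ s ≠ 0) (hp : ∀ᵐ x ∂μ, p x) : ∃ x ∈ s, p x := by
  obtain ⟨x, hx⟩ := ((frequently_ae_mem_iff.mpr hs).and_eventually hp).exists
  exact ⟨x, hx.1, hx.2⟩

theorem agr_eq_coe {n : ℕ} {y y' : Om} : agr y y' = n ↔ (∀ i < n, y i = y' i) ∧ y n ≠ y' n := by
  constructor
  · intro hn
    have h1 : (n : ℕ∞) ≤ agr y y' := hn.ge
    rw [le_agr] at h1
    refine ⟨fun i hi => h1 i (by exact_mod_cast hi), fun hne => ?_⟩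
    have h2 : ((n + 1 : ℕ) : ℕ∞) ≤ agr y y' := by
      rw [le_agr]
      intro i hi
      have hi' : i < n + 1 := by exact_mod_cast hi
      rcases Nat.lt_succ_iff_lt_or_eq.mp hi' with h | h
      · exact h1 i (by exact_mod_cast h)
      · rw [h]; exact hne
    rw [hn] at h2
    have h3 : n + 1 ≤ n := by exact_mod_cast h2
    omega
  · rintro ⟨h1, h2⟩
    apply le_antisymm
    · unfold agr
      exact iInf₂_le n h2
    · rw [le_agr]
      intro i hi
      exact h1 i (by exact_mod_cast hi)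

theorem isOpen_D_zero (n : ℕ) : IsOpen {t : Tr | D 0 t = n} := by
  have h1 : {t : Tr | D 0 t = n} =
      (⋂ i ∈ Finset.range n, {t : Tr | t.1 i + t.2.1 i = t.2.2 i}) ∩
        {t : Tr | t.1 n + t.2.1 n = t.2.2 n}ᶜ := by
    ext t
    simp only [D, mem_ofPred_eq, agr_eq_coe, h_zero, Pi.add_apply, mem_inter_iff, mem_iInter,
      Finset.mem_range, mem_compl_iff]
  have h2 : ∀ i, IsClopen {t : Tr | t.1 i + t.2.1 i = t.2.2 i} := by
    intro i
    have h3 : Continuous fun t : Tr => (t.1 i + t.2.1 i, t.2.2 i) := by fun_prop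
    exact (isClopen_discrete {q : ZMod 2 × ZMod 2 | q.1 = q.2}).preimage h3
  rw [h1]
  exact (isOpen_biInter_finset fun i _ => (h2 i).isOpen).inter (h2 n).compl.isOpen

theorem nonempty_D_zero (n : ℕ) : {t : Tr | D 0 t = n}.Nonempty := by
  refine ⟨(0, 0, g n), ?_⟩
  simp only [D, mem_ofPred_eq, agr_eq_coe, h_zero]
  constructor
  · intro i hi
    simp [g, hi.ne]
  · simp [g]

theorem isOpen_Agree (n : ℕ) (c d : Om) :
    IsOpen {w : Om × Om | Agree n w.1 c ∧ Agree n w.2 d} := by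
  have h1 : {w : Om × Om | Agree n w.1 c ∧ Agree n w.2 d} =
      ⋂ i ∈ Finset.range n, {w : Om × Om | w.1 i = c i ∧ w.2 i = d i} := by
    ext w
    simp only [Agree, mem_ofPred_eq, mem_iInter, Finset.mem_range, Nat.cast_lt]
    exact ⟨fun h i hi => ⟨h.1 i hi, h.2 i hi⟩, fun h => ⟨fun i hi => (h i hi).1,
      fun i hi => (h i hi).2⟩⟩
  rw [h1]
  refine isOpen_biInter_finset fun i _ => ?_
  have h3 : Continuous fun w : Om × Om => (w.1 i, w.2 i) := by fun_prop
  exact (isOpen_discrete {q : ZMod 2 × ZMod 2 | q.1 = c i ∧ q.2 = d i}).preimage h3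

open scoped ENNReal in
theorem bound {Y : Type*} [MeasurableSpace Y] (m : Measure Y) [IsProbabilityMeasure m]
    {G : Set (Y × Y)} (hG : MeasurableSet G) {c : ℝ≥0∞} (h : ∀ᵐ a ∂m, m {b | (a, b) ∈ G} ≤ c)
    {n : ℕ} (j : Fin n) :
    ((Measure.pi fun _ : Fin n => m).prod (Measure.pi fun _ : Fin n => m))
      {z | ∀ l, (z.1 j, z.2 l) ∈ G} ≤ c ^ n := by
  have hm : MeasurableSet {z : (Fin n → Y) × (Fin n → Y) | ∀ l, (z.1 j, z.2 l) ∈ G} := by
    have : {z : (Fin n → Y) × (Fin n → Y) | ∀ l, (z.1 j, z.2 l) ∈ G} =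
        ⋂ l, (fun z : (Fin n → Y) × (Fin n → Y) => (z.1 j, z.2 l)) ⁻¹' G := by
      ext z; simp
    rw [this]
    refine MeasurableSet.iInter fun l => ?_
    exact (((measurable_pi_apply j).comp measurable_fst).prodMk
      ((measurable_pi_apply l).comp measurable_snd)) hG
  rw [Measure.prod_apply hm]
  have h1 : ∀ᵐ x ∂(Measure.pi fun _ : Fin n => m), m {b | (x j, b) ∈ G} ≤ c :=
    (measurePreserving_eval (fun _ : Fin n => m) j).quasiMeasurePreserving.ae h
  calc ∫⁻ x, (Measure.pi fun _ : Fin n => m)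
        (Prod.mk x ⁻¹' {z : (Fin n → Y) × (Fin n → Y) | ∀ l, (z.1 j, z.2 l) ∈ G})
          ∂(Measure.pi fun _ : Fin n => m)
      ≤ ∫⁻ _, c ^ n ∂(Measure.pi fun _ : Fin n => m) := by
        refine lintegral_mono_ae ?_
        filter_upwards [h1] with x hx
        have h2 : Prod.mk x ⁻¹' {z : (Fin n → Y) × (Fin n → Y) | ∀ l, (z.1 j, z.2 l) ∈ G} =
            Set.univ.pi fun _ : Fin n => {b | (x j, b) ∈ G} := by
          ext y; simp
        rw [h2, Measure.pi_pi]
        simp only [Finset.prod_const, Finset.card_univ, Fintype.card_fin]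
        exact pow_le_pow_left' hx n
    _ = c ^ n := by simp

open scoped ENNReal in
theorem exists_n : ∃ n : ℕ, 0 < n ∧
    (n : ℝ≥0∞) * 3 * ENNReal.ofReal (15 / 16) ^ n + (n : ℝ≥0∞) * 3 * ENNReal.ofReal (15 / 16) ^ n
      < 1 := by
  have h1 := tendsto_self_mul_const_pow_of_lt_one (r := (15 / 16 : ℝ)) (by norm_num) (by norm_num)
  have h2 := (h1.eventually (gt_mem_nhds (show (0 : ℝ) < 1 / 6 by norm_num))).and
    (eventually_gt_atTop 0)
  obtain ⟨n, hn, hn0⟩ := h2.exists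
  refine ⟨n, hn0, ?_⟩
  have h3 : (n : ℝ≥0∞) * 3 * ENNReal.ofReal (15 / 16) ^ n +
      (n : ℝ≥0∞) * 3 * ENNReal.ofReal (15 / 16) ^ n =
      ENNReal.ofReal (6 * (n * (15 / 16) ^ n)) := by
    have e1 : ENNReal.ofReal (6 * (n * (15 / 16 : ℝ) ^ n)) =
        6 * ((n : ℝ≥0∞) * ENNReal.ofReal (15 / 16) ^ n) := by
      rw [ENNReal.ofReal_mul (by norm_num), ENNReal.ofReal_mul (by positivity),
        ENNReal.ofReal_pow (by norm_num)]
      norm_num
    rw [e1]
    ring
  rw [h3]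
  rw [← ENNReal.ofReal_one]
  exact (ENNReal.ofReal_lt_ofReal_iff (by norm_num)).mpr (by linarith)

namespace Sys

variable {μ : Measure Om} [IsProbabilityMeasure μ] [μ.IsAddHaarMeasure] (σ : Sys μ)

/-- Good triples. -/
def Gd (t : Tr) : Prop := ∀ i r r',
  (∀ᵐ t' ∂(μ.prod (μ.prod μ)), (σ.K i r r' t t' ↔ D r t ≤ D r' t')) ∧
  (∀ᵐ t' ∂(μ.prod (μ.prod μ)), (σ.K i r r' t' t ↔ D r t' ≤ D r' t))

theorem gd_ae : ∀ᵐ t ∂(μ.prod (μ.prod μ)), σ.Gd t := by
  unfold Gd
  rw [ae_all_iff]; intro i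
  rw [ae_all_iff]; intro r
  rw [ae_all_iff]; intro r'
  have h1 := Measure.ae_ae_of_ae_prod (σ.K_ae i r r')
  have h2 := Measure.ae_ae_of_ae_prod
    ((Measure.measurePreserving_swap (μ := μ.prod (μ.prod μ))
      (ν := μ.prod (μ.prod μ))).quasiMeasurePreserving.ae (σ.K_ae i r r'))
  filter_upwards [h1, h2] with t h1 h2
  exact ⟨h1, h2⟩

theorem In_ae : ∀ᵐ t ∂(μ.prod (μ.prod μ)), t ∈ In σ.A := by
  have h1 : ∀ᵐ t ∂(μ.prod (μ.prod μ)), t.1 ∈ σ.A :=
    measurePreserving_fst.quasiMeasurePreserving.ae σ.A_ae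
  have h2 : ∀ᵐ t ∂(μ.prod (μ.prod μ)), t.2.1 ∈ σ.A :=
    (measurePreserving_fst.comp measurePreserving_snd).quasiMeasurePreserving.ae σ.A_ae
  have h3 : ∀ᵐ t ∂(μ.prod (μ.prod μ)), t.2.2 ∈ σ.A :=
    (measurePreserving_snd.comp measurePreserving_snd).quasiMeasurePreserving.ae σ.A_ae
  filter_upwards [h1, h2, h3] with t h1 h2 h3 using ⟨h1, h2, h3⟩

theorem chain (n : ℕ) : ∀ i, ∃ t, σ.Gd t ∧ t ∈ In σ.A ∧ D 0 t = n ∧
    ∀ᶠ j in σ.F, (n : ℕ∞) ≤ D 0 (im (σ.e j) i t) := by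
  induction n with
  | zero =>
    intro i
    obtain ⟨t, ht, h1, h2⟩ := exists_of_ae ((isOpen_D_zero 0).measure_ne_zero (μ.prod (μ.prod μ))
      (nonempty_D_zero 0)) (σ.gd_ae.and σ.In_ae)
    exact ⟨t, h1, h2, ht, Eventually.of_forall fun j => by simp⟩
  | succ n ih =>
    intro i
    obtain ⟨t, h1, h2, h3, h4⟩ := ih (!i)
    obtain ⟨t', h5, h6, h7, h8⟩ := exists_of_ae
      ((isOpen_D_zero (n + 1)).measure_ne_zero (μ.prod (μ.prod μ))
      (nonempty_D_zero (n + 1))) (σ.gd_ae.and (σ.In_ae.and (h1 i 0 0).2))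
    refine ⟨t', h6, h7, h5, ?_⟩
    have h9 : ¬ σ.K i 0 0 t' t := by
      rw [h8]
      have h10 : D 0 t' = ((n + 1 : ℕ) : ℕ∞) := h5
      rw [h10, h3, not_le]
      exact_mod_cast Nat.lt_succ_self n
    filter_upwards [h4, σ.hK i 0 0 t' t h7 h2] with j h11 h12
    rw [h12, not_le] at h9
    have h13 := lt_of_le_of_lt h11 h9
    exact_mod_cast Order.add_one_le_of_lt h13

theorem map1 : MeasurePreserving (fun z : (Om × Om) × (Om × Om) => (z.1.1, (z.1.2, z.2.2)))
    ((μ.prod μ).prod (μ.prod μ)) (μ.prod (μ.prod μ)) :=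
  (measurePreserving_prodAssoc μ μ μ).comp
    ((MeasurePreserving.id (μ.prod μ)).prod measurePreserving_snd)

theorem map3 : MeasurePreserving (fun z : (Om × Om) × (Om × Om) => (z.2.1, (z.1.2, z.2.2)))
    ((μ.prod μ).prod (μ.prod μ)) (μ.prod (μ.prod μ)) := by
  have h1 : MeasurePreserving (fun z : (Om × Om) × (Om × Om) => (z.1.2, (z.2.1, z.2.2)))
      ((μ.prod μ).prod (μ.prod μ)) (μ.prod (μ.prod μ)) :=
    measurePreserving_snd.prod (MeasurePreserving.id (μ.prod μ))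
  have h2 : MeasurePreserving (fun z : Om × (Om × Om) => ((z.1, z.2.1), z.2.2))
      (μ.prod (μ.prod μ)) ((μ.prod μ).prod μ) :=
    (measurePreserving_prodAssoc μ μ μ).symm
  have h3 : MeasurePreserving (fun z : (Om × Om) × Om => ((z.1.2, z.1.1), z.2))
      ((μ.prod μ).prod μ) ((μ.prod μ).prod μ) :=
    (Measure.measurePreserving_swap (μ := μ) (ν := μ)).prod (MeasurePreserving.id μ)
  exact (measurePreserving_prodAssoc μ μ μ).comp (h3.comp (h2.comp h1))

theorem map2 (r : Fin 3) :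
    MeasurePreserving (fun z : (Om × Om) × (Om × Om) => (z.2.1, (z.1.2, z.1.1 + h r z.1.2)))
    ((μ.prod μ).prod (μ.prod μ)) (μ.prod (μ.prod μ)) := by
  have h1 : MeasurePreserving (fun z : (Om × Om) × (Om × Om) => (z.1, z.2.1))
      ((μ.prod μ).prod (μ.prod μ)) ((μ.prod μ).prod μ) :=
    (MeasurePreserving.id (μ.prod μ)).prod measurePreserving_fst
  have h2 : MeasurePreserving (fun z : (Om × Om) × Om => (z.2, z.1))
      ((μ.prod μ).prod μ) (μ.prod (μ.prod μ)) := Measure.measurePreserving_swap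
  have h3 : MeasurePreserving (fun z : Om × Om => (z.1, z.2 + h r z.1))
      (μ.prod μ) (μ.prod μ) := by
    refine (MeasurePreserving.id μ).skew_product (g := fun a c => c + h r a) ?_ ?_
    · exact measurable_snd.add ((h_meas r).comp measurable_fst)
    · exact Eventually.of_forall fun a => (measurePreserving_add_right μ (h r a)).map_eq
  have h4 : MeasurePreserving (fun z : Om × Om => (z.2, z.1 + h r z.2))
      (μ.prod μ) (μ.prod μ) := h3.comp Measure.measurePreserving_swap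
  exact ((MeasurePreserving.id μ).prod h4).comp (h2.comp h1)

theorem squeeze (i : Bool) (r : Fin 3) (n : ℕ) : ∀ᵐ a ∂(μ.prod μ),
    ∀ᶠ j in σ.F, (n : ℕ∞) ≤ D r (im (σ.e j) i (tri r a)) := by
  obtain ⟨t, h1, h2, h3, h4⟩ := σ.chain n (!i)
  have h5 : ∀ᵐ w ∂(μ.prod (μ.prod μ)), w ∈ In σ.A ∧ (σ.K (!i) 0 r t w ↔ D 0 t ≤ D r w) :=
    σ.In_ae.and (h1 (!i) 0 r).1
  have h6 := Measure.ae_ae_of_ae_prod ((map1.quasiMeasurePreserving.ae h5).and
    ((map3.quasiMeasurePreserving.ae h5).and ((map2 r).quasiMeasurePreserving.ae h5)))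
  filter_upwards [h6] with a ha
  obtain ⟨w, ⟨hw1, hw2⟩, h7, h8, h9⟩ := exists_of_ae
    ((isOpen_Agree n a.1 (a.1 + h r a.2)).measure_ne_zero (μ.prod μ)
      ⟨(a.1, a.1 + h r a.2), Agree.refl _ _, Agree.refl _ _⟩) ha
  have e1 : (n : ℕ∞) ≤ D r (a.1, (a.2, w.2)) := by
    rw [le_D]; exact hw2.symm
  have e2 : (n : ℕ∞) ≤ D r (w.1, (a.2, w.2)) := by
    rw [le_D]
    exact (hw1.add (Agree.refl _ _)).trans hw2.symm
  have e3 : (n : ℕ∞) ≤ D r (w.1, (a.2, a.1 + h r a.2)) := by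
    rw [le_D]
    exact hw1.add (Agree.refl _ _)
  have k1 := h7.2.mpr (h3.le.trans e1)
  have k2 := h8.2.mpr (h3.le.trans e2)
  have k3 := h9.2.mpr (h3.le.trans e3)
  filter_upwards [h4, σ.hK (!i) 0 r _ _ h2 h7.1, σ.hK (!i) 0 r _ _ h2 h8.1,
    σ.hK (!i) 0 r _ _ h2 h9.1] with j c1 c2 c3 c4
  rw [Bool.not_not] at c2 c3 c4
  have d1 := le_D.mp (c1.trans (c2.mp k1))
  have d2 := le_D.mp (c1.trans (c3.mp k2))
  have d3 := le_D.mp (c1.trans (c4.mp k3))
  rw [le_D]
  exact (d1.trans d2.symm).trans d3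

/-- Pairs all of whose rule values are in the good set. -/
def G2 : Set (Om × Om) := {a | ∀ r, tri r a ∈ In σ.A}

/-- Pairs of pairs such that the first has the smaller defect. -/
def G (i : Bool) (r : Fin 3) : Set ((Om × Om) × (Om × Om)) :=
  {q | q.2 ∈ σ.G2 ∧ ∀ r', σ.K i r r' (tri r q.1) (tri r' q.2)}

theorem In_meas : MeasurableSet (In σ.A) :=
  (measurable_fst σ.A_meas).inter (((measurable_fst.comp measurable_snd) σ.A_meas).inter
    ((measurable_snd.comp measurable_snd) σ.A_meas))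

theorem G2_meas : MeasurableSet σ.G2 := by
  have : σ.G2 = ⋂ r, tri r ⁻¹' (In σ.A) := by
    ext a
    simp [G2]
  rw [this]
  exact MeasurableSet.iInter fun r => tri_meas r σ.In_meas

theorem G2_ae : ∀ᵐ a ∂(μ.prod μ), a ∈ σ.G2 := by
  have h1 : ∀ r, ∀ᵐ a ∂(μ.prod μ), tri r a ∈ In σ.A := by
    intro r
    have h2 := Measure.ae_ae_of_ae_prod (map1.quasiMeasurePreserving.ae σ.In_ae)
    have h3 := Measure.ae_ae_of_ae_prod ((map2 r).quasiMeasurePreserving.ae σ.In_ae)
    filter_upwards [h2, h3] with a h2 h3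
    obtain ⟨x, hx⟩ := (h2.and h3).exists
    exact ⟨hx.1.1, hx.1.2.1, hx.2.2.2⟩
  simpa only [G2, mem_ofPred_eq, ae_all_iff] using h1

theorem G_meas (i : Bool) (r : Fin 3) : MeasurableSet (σ.G i r) := by
  have : σ.G i r = (Prod.snd ⁻¹' σ.G2) ∩
      ⋂ r', (fun q : (Om × Om) × (Om × Om) => (tri r q.1, tri r' q.2)) ⁻¹'
        {q : Tr × Tr | σ.K i r r' q.1 q.2} := by
    ext q
    simp [G]
  rw [this]
  refine (measurable_snd σ.G2_meas).inter (MeasurableSet.iInter fun r' => ?_)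
  exact (((tri_meas r).comp measurable_fst).prodMk ((tri_meas r').comp measurable_snd))
    (σ.K_meas i r r')

theorem pick {n : ℕ} [NeZero n] (a b : Fin n → Om × Om) (ha : ∀ j, a j ∈ σ.G2)
    (hb : ∀ j, b j ∈ σ.G2) :
    (∃ j r, ∀ l, (a j, b l) ∈ σ.G false r) ∨ (∃ j r, ∀ l, (b j, a l) ∈ σ.G true r) := by
  have h1 : ∀ᶠ x in σ.F, ∀ j l r r',
      (σ.K false r r' (tri r (a j)) (tri r' (b l)) ↔
        D r (im (σ.e x) false (tri r (a j))) ≤ D r' (im (σ.e x) true (tri r' (b l)))) ∧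
      (σ.K true r r' (tri r (b j)) (tri r' (a l)) ↔
        D r (im (σ.e x) true (tri r (b j))) ≤ D r' (im (σ.e x) false (tri r' (a l)))) := by
    rw [eventually_all]; intro j
    rw [eventually_all]; intro l
    rw [eventually_all]; intro r
    rw [eventually_all]; intro r'
    exact (σ.hK false r r' _ _ (ha j r) (hb l r')).and (σ.hK true r r' _ _ (hb j r) (ha l r'))
  have := σ.neBot
  obtain ⟨x, hx⟩ := h1.exists
  obtain ⟨p, hp⟩ := Finite.exists_min
    (fun p : Fin n × Fin 3 => D p.2 (im (σ.e x) false (tri p.2 (a p.1))))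
  obtain ⟨q, hq⟩ := Finite.exists_min
    (fun p : Fin n × Fin 3 => D p.2 (im (σ.e x) true (tri p.2 (b p.1))))
  rcases le_total (D p.2 (im (σ.e x) false (tri p.2 (a p.1))))
    (D q.2 (im (σ.e x) true (tri q.2 (b q.1)))) with h | h
  · left
    refine ⟨p.1, p.2, fun l => ⟨hb l, fun r' => ?_⟩⟩
    rw [(hx p.1 l p.2 r').1]
    exact h.trans (hq (l, r'))
  · right
    refine ⟨q.1, q.2, fun l => ⟨ha l, fun r' => ?_⟩⟩
    rw [(hx q.1 l q.2 r').2]
    exact h.trans (hp (l, r'))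

open scoped ENNReal in
theorem select : ∃ i r, ¬ ∀ᵐ a ∂(μ.prod μ), (1 / 16 : ℝ≥0∞) ≤ (μ.prod μ) {b | (a, b) ∉ σ.G i r} := by
  by_contra hcon
  push Not at hcon
  have hc : ∀ i r, ∀ᵐ a ∂(μ.prod μ),
      (μ.prod μ) {b | (a, b) ∈ σ.G i r} ≤ ENNReal.ofReal (15 / 16) := by
    intro i r
    filter_upwards [hcon i r] with a ha
    have hm : MeasurableSet {b | (a, b) ∈ σ.G i r} := measurable_prodMk_left (σ.G_meas i r)
    have h1 : (μ.prod μ) {b | (a, b) ∉ σ.G i r} = 1 - (μ.prod μ) {b | (a, b) ∈ σ.G i r} :=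
      prob_compl_eq_one_sub hm
    rw [h1] at ha
    have h2 : (μ.prod μ) {b | (a, b) ∈ σ.G i r} ≤ 1 - 1 / 16 := by
      have h3 : (1 : ℝ≥0∞) / 16 ≤ 1 - (μ.prod μ) {b | (a, b) ∈ σ.G i r} := ha
      have h4 := tsub_le_tsub_left h3 1
      rwa [ENNReal.sub_sub_cancel ENNReal.one_ne_top prob_le_one] at h4
    refine h2.trans (le_of_eq ?_)
    rw [← ENNReal.ofReal_one, show (16 : ℝ≥0∞) = ENNReal.ofReal 16 by norm_num,
      ← ENNReal.ofReal_div_of_pos (by norm_num), ← ENNReal.ofReal_sub _ (by norm_num)]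
    norm_num
  obtain ⟨n, hn0, hn⟩ := exists_n
  have : NeZero n := ⟨hn0.ne'⟩
  set ν : Measure (Fin n → Om × Om) := Measure.pi fun _ : Fin n => μ.prod μ with hν
  let B0 : Fin n × Fin 3 → Set ((Fin n → Om × Om) × (Fin n → Om × Om)) :=
    fun p => {z | ∀ l, (z.1 p.1, z.2 l) ∈ σ.G false p.2}
  let B1 : Fin n × Fin 3 → Set ((Fin n → Om × Om) × (Fin n → Om × Om)) :=
    fun p => {z | ∀ l, (z.2 p.1, z.1 l) ∈ σ.G true p.2}
  have hB0 : ∀ p, (ν.prod ν) (B0 p) ≤ ENNReal.ofReal (15 / 16) ^ n := fun p =>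
    bound (μ.prod μ) (σ.G_meas false p.2) (hc false p.2) p.1
  have hB1 : ∀ p, (ν.prod ν) (B1 p) ≤ ENNReal.ofReal (15 / 16) ^ n := by
    intro p
    have h1 := bound (μ.prod μ) (σ.G_meas true p.2) (hc true p.2) p.1
    have h2 : MeasurableSet {z : (Fin n → Om × Om) × (Fin n → Om × Om) |
        ∀ l, (z.1 p.1, z.2 l) ∈ σ.G true p.2} := by
      have : {z : (Fin n → Om × Om) × (Fin n → Om × Om) | ∀ l, (z.1 p.1, z.2 l) ∈ σ.G true p.2} =
          ⋂ l, (fun z : (Fin n → Om × Om) × (Fin n → Om × Om) => (z.1 p.1, z.2 l)) ⁻¹'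
            σ.G true p.2 := by
        ext z; simp
      rw [this]
      refine MeasurableSet.iInter fun l => ?_
      exact (((measurable_pi_apply p.1).comp measurable_fst).prodMk
        ((measurable_pi_apply l).comp measurable_snd)) (σ.G_meas true p.2)
    have h3 := (Measure.measurePreserving_swap (μ := ν) (ν := ν)).measure_preimage
      h2.nullMeasurableSet
    exact h3.le.trans h1
  have hcov : ∀ᵐ z ∂(ν.prod ν), z ∈ (⋃ p, B0 p) ∪ (⋃ p, B1 p) := by
    have h1 : ∀ᵐ x ∂ν, ∀ j, x j ∈ σ.G2 := by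
      rw [ae_all_iff]
      intro j
      exact (measurePreserving_eval (fun _ : Fin n => μ.prod μ) j).quasiMeasurePreserving.ae
        σ.G2_ae
    have h2 : ∀ᵐ z ∂(ν.prod ν), ∀ j, z.1 j ∈ σ.G2 :=
      measurePreserving_fst.quasiMeasurePreserving.ae h1
    have h3 : ∀ᵐ z ∂(ν.prod ν), ∀ j, z.2 j ∈ σ.G2 :=
      measurePreserving_snd.quasiMeasurePreserving.ae h1
    filter_upwards [h2, h3] with z h2 h3
    rcases σ.pick z.1 z.2 h2 h3 with ⟨j, r, h⟩ | ⟨j, r, h⟩
    · exact Or.inl (mem_iUnion.mpr ⟨(j, r), h⟩)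
    · exact Or.inr (mem_iUnion.mpr ⟨(j, r), h⟩)
  have h1 : (1 : ℝ≥0∞) ≤ (ν.prod ν) ((⋃ p, B0 p) ∪ (⋃ p, B1 p)) := by
    have : (ν.prod ν) ((⋃ p, B0 p) ∪ (⋃ p, B1 p)) = (ν.prod ν) Set.univ :=
      measure_congr (eventuallyEq_univ.mpr hcov)
    rw [this, measure_univ]
  have h2 : ∀ B : Fin n × Fin 3 → Set ((Fin n → Om × Om) × (Fin n → Om × Om)),
      (∀ p, (ν.prod ν) (B p) ≤ ENNReal.ofReal (15 / 16) ^ n) →
      (ν.prod ν) (⋃ p, B p) ≤ (n : ℝ≥0∞) * 3 * ENNReal.ofReal (15 / 16) ^ n := by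
    intro B hB
    calc (ν.prod ν) (⋃ p, B p) ≤ ∑ p, (ν.prod ν) (B p) := measure_iUnion_fintype_le _ _
      _ ≤ ∑ _p : Fin n × Fin 3, ENNReal.ofReal (15 / 16) ^ n := Finset.sum_le_sum fun p _ => hB p
      _ = _ := by simp
  have h3 := h1.trans ((measure_union_le _ _).trans (add_le_add (h2 B0 hB0) (h2 B1 hB1)))
  exact absurd h3 (not_le.mpr hn)

/-- The continuity of translations, in measure. -/
theorem tendsto_translate {B : Set Om} (hB : MeasurableSet B) :
    Tendsto (fun j => μ (symmDiff ((fun y => y + g j) ⁻¹' B) B)) atTop (nhds 0) := by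
  let f : ℕ → C(Om, Om) := fun j => ⟨fun y => y + g j, by fun_prop⟩
  have h0 : Tendsto g atTop (nhds 0) := by
    rw [tendsto_pi_nhds]
    intro i
    refine tendsto_const_nhds.congr' ?_
    filter_upwards [eventually_gt_atTop i] with j hj
    simp [g, hj.ne]
  have hc : Continuous fun p : Om => (⟨fun y => y + p, by fun_prop⟩ : C(Om, Om)) := by
    refine ContinuousMap.continuous_of_continuous_uncurry _ ?_
    exact continuous_snd.add continuous_fst
  have h1 : Tendsto f atTop (nhds (⟨fun y => y + 0, by fun_prop⟩ : C(Om, Om))) :=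
    (hc.tendsto 0).comp h0
  have h2 : (⟨fun y => y + 0, by fun_prop⟩ : C(Om, Om)) = ContinuousMap.id Om := by
    ext y
    simp
  rw [h2] at h1
  have h3 := tendsto_measure_symmDiff_preimage_nhds_zero (μ := μ) (ν := μ) (s := B) h1
    (Eventually.of_forall fun j => measurePreserving_add_right μ (g j))
    (MeasurePreserving.id μ) hB.nullMeasurableSet (measure_ne_top _ _)
  exact h3

end Sys

section Rigid

variable (μ : Measure Om) [IsProbabilityMeasure μ] [μ.IsAddHaarMeasure]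

open scoped ENNReal

/-- Sequences typical as second coordinate. -/
def Ty (W : Set (Om × Om)) : Set Om := {y | μ {x | (x, y) ∉ W} < 1 / 4}

theorem Ty_meas {W : Set (Om × Om)} (hW : MeasurableSet W) : MeasurableSet (Ty μ W) := by
  have h1 : Measurable fun y => μ {x | (x, y) ∉ W} :=
    measurable_measure_prodMk_right (μ := μ) hW.compl
  exact measurableSet_lt h1 measurable_const

theorem Ty_compl {W : Set (Om × Om)} (hW : MeasurableSet W) (hW' : (μ.prod μ) Wᶜ < 1 / 16) :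
    μ (Ty μ W)ᶜ < 1 / 4 := by
  have h1 : Measurable fun y => μ {x | (x, y) ∉ W} :=
    measurable_measure_prodMk_right (μ := μ) hW.compl
  have h2 := mul_meas_ge_le_lintegral (μ := μ) h1 (1 / 4)
  have h3 : ∫⁻ y, μ {x | (x, y) ∉ W} ∂μ = (μ.prod μ) Wᶜ := by
    rw [Measure.prod_apply_symm hW.compl]
    rfl
  rw [h3] at h2
  have h4 : (Ty μ W)ᶜ = {y | 1 / 4 ≤ μ {x | (x, y) ∉ W}} := by
    ext y
    simp [Ty]
  rw [h4]
  by_contra hcon
  rw [not_lt] at hcon
  have h5 : (1 / 16 : ℝ≥0∞) ≤ 1 / 4 * μ {y | 1 / 4 ≤ μ {x | (x, y) ∉ W}} := by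
    refine le_trans (le_of_eq ?_) (mul_le_mul_right hcon _)
    rw [show (16 : ℝ≥0∞) = 4 * 4 by norm_num, one_div, one_div,
      ENNReal.mul_inv (by norm_num) (by norm_num)]
  exact absurd (h5.trans h2) (not_le.mpr hW')

theorem quarter_four : (1 / 4 : ℝ≥0∞) + 1 / 4 + 1 / 4 + 1 / 4 = 1 := by
  have h : (1 / 4 : ℝ≥0∞) + 1 / 4 + 1 / 4 + 1 / 4 = 4 * (1 / 4) := by ring
  rw [h, one_div]
  exact ENNReal.mul_inv_cancel (by norm_num) (by norm_num)

theorem four {p q s t : Set Om} (hp : μ pᶜ < 1 / 4) (hq : μ qᶜ < 1 / 4) (hs : μ sᶜ < 1 / 4)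
    (ht : μ tᶜ < 1 / 4) : ∃ x, x ∈ p ∧ x ∈ q ∧ x ∈ s ∧ x ∈ t := by
  by_contra hcon
  push Not at hcon
  have h1 : (Set.univ : Set Om) ⊆ ((pᶜ ∪ qᶜ) ∪ sᶜ) ∪ tᶜ := by
    intro x _
    by_cases h1 : x ∈ p
    · by_cases h2 : x ∈ q
      · by_cases h3 : x ∈ s
        · exact Or.inr (hcon x h1 h2 h3)
        · exact Or.inl (Or.inr h3)
      · exact Or.inl (Or.inl (Or.inr h2))
    · exact Or.inl (Or.inl (Or.inl h1))
  have h2 : μ Set.univ ≤ μ pᶜ + μ qᶜ + μ sᶜ + μ tᶜ := by
    refine (measure_mono h1).trans ((measure_union_le _ _).trans ?_)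
    gcongr
    refine (measure_union_le _ _).trans ?_
    gcongr
    exact measure_union_le _ _
  rw [measure_univ] at h2
  have h3 : μ pᶜ + μ qᶜ + μ sᶜ + μ tᶜ < 1 / 4 + 1 / 4 + 1 / 4 + 1 / 4 :=
    ENNReal.add_lt_add (ENNReal.add_lt_add (ENNReal.add_lt_add hp hq) hs) ht
  rw [quarter_four] at h3
  exact absurd h2 (not_le.mpr h3)

theorem translate_compl (A : Set Om) (z : Om) : μ {y | y + z ∈ A}ᶜ = μ Aᶜ :=
  measure_preimage_add_right μ z Aᶜ

theorem rigid {W : Set (Om × Om)} (hW : MeasurableSet W) (hW' : (μ.prod μ) Wᶜ < 1 / 16)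
    {J : Type} (F : Filter J) (α β γ : J → Om → Om) (v : J → ℕ∞)
    (hrule : ∀ x y, (x, y) ∈ W → ∀ r, ∀ᶠ j in F,
      Agree (v j) (α j x + h r (β j y)) (γ j (x + h r y))) (k : ℕ) :
    ∀ y, y ∈ Ty μ W → y + M^[k] (g 0) ∈ Ty μ W →
      ∀ᶠ j in F, Agree (v j) (β j (y + M^[k] (g 0))) (β j y + M^[k] (g 0)) := by
  have key : ∀ (v : ℕ∞) (a b c : Om), Agree v (a + b) (a + c) → Agree v b c := by
    intro v a b c hab i hi
    have := hab i hi
    simpa using this
  induction k with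
  | zero =>
    intro y hy hy'
    simp only [Function.iterate_zero, id_eq] at hy' ⊢
    obtain ⟨x, h1, h2, -, -⟩ := four μ (p := {x | (x, y) ∈ W}) (q := {x | (x, y + g 0) ∈ W})
      (s := {x | (x, y) ∈ W}) (t := {x | (x, y) ∈ W}) hy hy' hy hy
    filter_upwards [hrule x y h1 1, hrule x (y + g 0) h2 0] with j e1 e2
    rw [h_one, h_one] at e1
    rw [h_zero, h_zero] at e2
    exact key _ _ _ _ (e2.trans e1.symm)
  | succ k ih =>
    intro y hy hy'
    rw [Function.iterate_succ_apply'] at hy' ⊢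
    set z := M^[k] (g 0) with hz
    have hT := Ty_compl μ hW hW'
    have hT' : μ {y | y + z ∈ Ty μ W}ᶜ < 1 / 4 := by rw [translate_compl]; exact hT
    obtain ⟨y2, hy2, hy2', -, -⟩ := four μ hT hT' hT hT
    obtain ⟨b, h1, h2, h3, h4⟩ := four μ (p := {b | (b, y) ∈ W}) (q := {b | (b, y + M z) ∈ W})
      (s := {b | b + (y + M y2) ∈ {x | (x, y2) ∈ W}})
      (t := {b | b + (y + M y2) ∈ {x | (x, y2 + z) ∈ W}}) hy hy'
      (by rw [translate_compl]; exact hy2) (by rw [translate_compl]; exact hy2')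
    filter_upwards [hrule b y h1 0, hrule b (y + M z) h2 0, hrule _ y2 h3 2,
      hrule _ (y2 + z) h4 2, ih y2 hy2 hy2'] with j e1 e2 e3 e4 e5
    rw [h_zero, h_zero] at e1 e2
    rw [h_two, h_two] at e3 e4
    set x := b + (y + M y2) with hx
    have x1 : x + M y2 = b + y := by
      rw [hx]
      have := add_self (M y2)
      calc b + (y + M y2) + M y2 = b + y + (M y2 + M y2) := by abel
        _ = b + y := by rw [this, add_zero]
    have x2 : x + M (y2 + z) = b + (y + M z) := by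
      rw [M_add, ← add_assoc, x1, add_assoc]
    rw [x1] at e3
    rw [x2] at e4
    have e6 := e5.M
    rw [M_add] at e6
    -- γ (b + y + M z) ≈ α x + M (β y2) + M z
    have e7 : Agree (v j) (γ j (b + (y + M z))) (α j x + M (β j y2) + M z) := by
      rw [add_assoc]
      exact e4.symm.trans ((Agree.refl _ _).add e6)
    have e8 : Agree (v j) (γ j (b + (y + M z))) (α j b + β j y + M z) :=
      e7.trans ((e3.trans e1.symm).add (Agree.refl _ _))
    have e9 := e2.trans e8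
    rw [add_assoc] at e9
    exact key _ _ _ _ e9

end Rigid

namespace Sys

open scoped ENNReal

/-- **The impossibility theorem.** -/
theorem false {μ : Measure Om} [IsProbabilityMeasure μ] [μ.IsAddHaarMeasure] (σ : Sys μ) :
    False := by
  obtain ⟨i, r, hir⟩ := σ.select
  have hsq : ∀ᵐ a ∂(μ.prod μ), ∀ n : ℕ,
      ∀ᶠ j in σ.F, (n : ℕ∞) ≤ D r (im (σ.e j) i (tri r a)) := by
    rw [ae_all_iff]
    exact fun n => σ.squeeze i r n
  have hfr : ∃ᵐ a ∂(μ.prod μ), (μ.prod μ) {b | (a, b) ∉ σ.G i r} < 1 / 16 := by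
    intro h1
    apply hir
    filter_upwards [h1] with a ha
    exact not_lt.mp ha
  obtain ⟨a, ha1, ha2, ha3⟩ := (hfr.and_eventually (hsq.and σ.G2_ae)).exists
  set W : Set (Om × Om) := {b | (a, b) ∈ σ.G i r} with hWdef
  have hW : MeasurableSet W := measurable_prodMk_left (σ.G_meas i r)
  have hW' : (μ.prod μ) Wᶜ < 1 / 16 := ha1
  set B : Set Om := {y | σ.P i r (tri r a) y} with hBdef
  have hB : MeasurableSet B := σ.P_meas i r _
  have hF := σ.neBot
  have hrule : ∀ x y, (x, y) ∈ W → ∀ r', ∀ᶠ j in σ.F,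
      Agree (D r (im (σ.e j) i (tri r a))) (σ.e j (!i) 0 x + h r' (σ.e j (!i) 1 y))
        (σ.e j (!i) 2 (x + h r' y)) := by
    intro x y hxy r'
    filter_upwards [σ.hK i r r' (tri r a) (tri r' (x, y)) (ha3 r) (hxy.1 r')] with j hj
    have h1 := hj.mp (hxy.2 r')
    rw [le_D] at h1
    exact h1
  have hrig := fun k => rigid μ hW hW' σ.F (fun j => σ.e j (!i) 0) (fun j => σ.e j (!i) 1)
    (fun j => σ.e j (!i) 2) (fun j => D r (im (σ.e j) i (tri r a))) hrule k
  -- choice of m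
  have ht : Tendsto (fun m : ℕ => μ (symmDiff ((fun y => y + g (2 ^ m)) ⁻¹' B) B)) atTop (nhds 0) :=
    (tendsto_translate hB).comp (tendsto_pow_atTop_atTop_of_one_lt (by norm_num))
  obtain ⟨m, hm⟩ := (ht.eventually (gt_mem_nhds (show (0 : ℝ≥0∞) < 1 / 4 by norm_num))).exists
  set j0 := 2 ^ m with hj0
  have hT : μ (Ty μ W ∩ σ.A)ᶜ < 1 / 4 := by
    have h1 : μ (Ty μ W ∩ σ.A)ᶜ = μ (Ty μ W)ᶜ := by
      refine measure_congr ?_
      filter_upwards [σ.A_ae] with y hy
      apply propext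
      change y ∈ (Ty μ W ∩ σ.A)ᶜ ↔ y ∈ (Ty μ W)ᶜ
      simp [hy]
    rw [h1]
    exact Ty_compl μ hW hW'
  obtain ⟨y, hy1, hy2, hy3, hy4⟩ := four μ (p := Ty μ W ∩ σ.A)
    (q := {y | y + g 0 ∈ Ty μ W ∩ σ.A}) (s := {y | y + (g 0 + g j0) ∈ Ty μ W ∩ σ.A})
    (t := {y | y + g 0 ∈ (symmDiff ((fun y => y + g j0) ⁻¹' B) B)ᶜ}) hT
    (by rw [translate_compl]; exact hT) (by rw [translate_compl]; exact hT)
    (by rw [translate_compl, compl_compl]; exact hm)
  have h1 : y + (g 0 + g j0) ∈ B ↔ y + g 0 ∈ B := by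
    have h2 : y + g 0 ∉ symmDiff ((fun y => y + g j0) ⁻¹' B) B := hy4
    rw [Set.mem_symmDiff] at h2
    rw [← add_assoc]
    simp only [mem_preimage] at h2
    tauto
  have h2 : ∀ᶠ j in σ.F, (y + g 0 ∈ B ↔ ¬ y ∈ B) := by
    filter_upwards [hrig 0 y hy1.1 hy2.1, ha2 1, σ.hP i r (tri r a) y (ha3 r) hy1.2,
      σ.hP i r (tri r a) (y + g 0) (ha3 r) hy2.2] with j e1 e2 e3 e4
    have e5 := fP_congr e1
    simp only [Function.iterate_zero, id_eq] at e5
    change (σ.P i r (tri r a) (y + g 0)) ↔ ¬ σ.P i r (tri r a) y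
    rw [e3, e4, e5]
    exact fP_add_g0 (by exact_mod_cast e2) _
  have h3 : ∀ᶠ j in σ.F, (y + (g 0 + g j0) ∈ B ↔ y ∈ B) := by
    have h4 := hrig j0 y hy1.1
    rw [hj0, M_iter_g, ← hj0] at h4
    filter_upwards [h4 hy3.1, ha2 (j0 + 1), σ.hP i r (tri r a) y (ha3 r) hy1.2,
      σ.hP i r (tri r a) (y + (g 0 + g j0)) (ha3 r) hy3.2] with j e1 e2 e3 e4
    have e5 := fP_congr e1
    change (σ.P i r (tri r a) (y + (g 0 + g j0))) ↔ σ.P i r (tri r a) y
    rw [e3, e4, e5]
    exact fP_add_g0_g e2 _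
  obtain ⟨-, h4, h5⟩ := (h2.and h3).exists
  tauto

end Sys

end Pool.Agent.H97.Theon
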