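import Mathlib
import Pool.Agent.H97.Theon.Core

set_option autoImplicit false
set_option linter.unusedSectionVars false

/-!
Binary digits as an isomorphism between the unit interval and the space of binary sequences.
-/

namespace Pool.Agent.H97.Theon

open MeasureTheory Filter Set

open scoped ENNReal

/-- The unit interval. -/
abbrev I : Type := unitInterval

/-- The fair coin measure on binary sequences. -/
noncomputable def mu : Measure Om := Measure.addHaarMeasure ⊤

instance : mu.IsAddHaarMeasure := by unfold mu; infer_instance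

instance : IsProbabilityMeasure mu := ⟨by
  have h := Measure.addHaarMeasure_self (K₀ := (⊤ : TopologicalSpace.PositiveCompacts Om))
  simpa [mu] using h⟩

/-- Cylinders. -/
def cyl (a : Om) (n : ℕ) : Set Om := PiNat.cylinder a n

theorem mem_cyl {a y : Om} {n : ℕ} : y ∈ cyl a n ↔ ∀ i < n, y i = a i := Iff.rfl

theorem cyl_meas (a : Om) (n : ℕ) : MeasurableSet (cyl a n) :=
  (PiNat.isOpen_cylinder _ a n).measurableSet

theorem mu_cyl_translate (a b : Om) (n : ℕ) : mu (cyl (a + b) n) = mu (cyl a n) := by
  rw [← measure_preimage_add_right mu b (cyl (a + b) n)]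
  congr 1
  ext y
  simp [mem_cyl]

theorem mu_cyl (a : Om) (n : ℕ) : mu (cyl a n) = (2⁻¹ : ℝ≥0∞) ^ n := by
  have h0 : ∀ n, mu (cyl 0 n) = (2⁻¹ : ℝ≥0∞) ^ n := by
    intro n
    induction n with
    | zero =>
      have : cyl 0 0 = Set.univ := by ext y; simp [mem_cyl]
      rw [this, measure_univ, pow_zero]
    | succ n ih =>
      have h1 : cyl 0 n = cyl 0 (n + 1) ∪ cyl (0 + g n) (n + 1) := by
        ext y
        simp only [mem_union, mem_cyl, Pi.zero_apply, zero_add]
        constructor
        · intro h
          have h2 : y n = 0 ∨ y n = 1 := by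
            generalize y n = z; revert z; decide
          rcases h2 with h2 | h2
          · left
            intro i hi
            rcases Nat.lt_succ_iff_lt_or_eq.mp hi with h3 | h3
            · exact h i h3
            · rw [h3, h2]
          · right
            intro i hi
            rcases Nat.lt_succ_iff_lt_or_eq.mp hi with h3 | h3
            · rw [h i h3]; simp [g, h3.ne]
            · rw [h3, h2]; simp [g]
        · rintro (h | h) i hi
          · exact h i (by omega)
          · rw [h i (by omega)]; simp [g, hi.ne]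
      have h2 : Disjoint (cyl 0 (n + 1)) (cyl (0 + g n) (n + 1)) := by
        rw [Set.disjoint_left]
        intro y hy hy'
        have e1 := hy n (Nat.lt_succ_self n)
        have e2 := hy' n (Nat.lt_succ_self n)
        rw [e1] at e2
        simp [g] at e2
      rw [h1, measure_union h2 (cyl_meas _ _), mu_cyl_translate] at ih
      rw [pow_succ, ← ih, ← two_mul, mul_comm, ← mul_assoc,
        ENNReal.inv_mul_cancel (by norm_num) (by norm_num), one_mul]
  rw [← h0 n, ← mu_cyl_translate 0 a n, zero_add]

theorem cyl_generate : (inferInstance : MeasurableSpace Om) =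
    MeasurableSpace.generateFrom {s | ∃ (a : Om) (n : ℕ), s = cyl a n} := by
  have h1 : (inferInstance : MeasurableSpace Om) = borel Om := BorelSpace.measurable_eq
  rw [h1]
  exact (PiNat.isTopologicalBasis_cylinders (fun _ : ℕ => ZMod 2)).borel_eq_generateFrom

theorem cyl_pi : IsPiSystem {s | ∃ (a : Om) (n : ℕ), s = cyl a n} := by
  have key : ∀ (a b : Om) (n m : ℕ), n ≤ m → (cyl a n ∩ cyl b m).Nonempty →
      cyl a n ∩ cyl b m = cyl b m := by
    rintro a b n m hnm ⟨c, hc1, hc2⟩
    refine inter_eq_right.mpr fun y hy i hi => ?_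
    rw [hy i (by omega), ← hc2 i (by omega), hc1 i hi]
  rintro _ ⟨a, n, rfl⟩ _ ⟨b, m, rfl⟩ hne
  rcases le_total n m with h | h
  · exact ⟨b, m, key a b n m h hne⟩
  · refine ⟨a, n, ?_⟩
    rw [inter_comm] at hne ⊢
    exact key b a m n h hne

/-- The binary digits of a number. -/
noncomputable def dig (x : I) : Om := (Real.digits (x : ℝ) 2 : ℕ → Fin 2)

/-- The number with given binary digits. -/
noncomputable def num (y : Om) : I :=
  ⟨Real.ofDigits (b := 2) y, Real.ofDigits_nonneg _, Real.ofDigits_le_one _⟩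

theorem dig_meas : Measurable dig := by
  rw [measurable_pi_iff]
  intro i
  have h1 : Measurable fun x : I => ⌊(x : ℝ) * ((2 : ℕ) : ℝ) ^ (i + 1)⌋₊ :=
    Nat.measurable_floor.comp (measurable_subtype_coe.mul_const _)
  exact (measurable_from_top (f := fun k : ℕ => (Fin.ofNat 2 k : ZMod 2))).comp h1

theorem num_meas : Measurable num :=
  (Real.continuous_ofDigits (b := 2)).measurable.subtype_mk

theorem num_dig {x : I} (hx : x ≠ 1) : num (dig x) = x := by
  apply Subtype.ext
  refine Real.ofDigits_digits (b := 2) (by norm_num) ⟨x.2.1, lt_of_le_of_ne x.2.2 ?_⟩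
  exact fun h => hx (Subtype.ext h)

/-- The number whose binary digits are the first `n` terms. -/
def kk (a : Om) : ℕ → ℕ
  | 0 => 0
  | n + 1 => 2 * kk a n + (a n).val

theorem kk_lt (a : Om) (n : ℕ) : kk a n < 2 ^ n := by
  induction n with
  | zero => simp [kk]
  | succ n ih =>
    have := (a n).val_lt
    rw [kk, pow_succ]
    omega

theorem dig_val (x : I) (i : ℕ) : (dig x i).val = ⌊(x : ℝ) * 2 ^ (i + 1)⌋₊ % 2 := by
  change ((Real.digits (x : ℝ) 2 i : Fin 2) : ℕ) = _
  simp [Real.digits]

theorem floor_iff (a : Om) (n : ℕ) (x : I) (hx : x ≠ 1) :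
    (∀ i < n, dig x i = a i) ↔ ⌊(x : ℝ) * 2 ^ n⌋₊ = kk a n := by
  have hx1 : (x : ℝ) < 1 := lt_of_le_of_ne x.2.2 fun h => hx (Subtype.ext h)
  induction n with
  | zero =>
    simp only [not_lt_zero, false_imp_iff, implies_true, pow_zero, mul_one, kk, true_iff]
    exact Nat.floor_eq_zero.mpr hx1
  | succ n ih =>
    have h1 : ⌊(x : ℝ) * 2 ^ (n + 1)⌋₊ / 2 = ⌊(x : ℝ) * 2 ^ n⌋₊ := by
      have h2 := Nat.floor_div_natCast ((x : ℝ) * 2 ^ (n + 1)) 2
      rw [← h2]
      congr 1
      rw [pow_succ]
      push_cast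
      ring
    have h3 : (dig x n = a n) ↔ ⌊(x : ℝ) * 2 ^ (n + 1)⌋₊ % 2 = (a n).val := by
      rw [← dig_val]
      exact ⟨fun h => by rw [h], fun h => ZMod.val_injective 2 h⟩
    have h4 : (∀ i < n + 1, dig x i = a i) ↔ (∀ i < n, dig x i = a i) ∧ dig x n = a n := by
      constructor
      · intro h
        exact ⟨fun i hi => h i (by omega), h n (by omega)⟩
      · rintro ⟨h, h'⟩ i hi
        rcases Nat.lt_succ_iff_lt_or_eq.mp hi with h5 | h5
        · exact h i h5
        · rw [h5]; exact h'
    refine h4.trans ((and_congr ih h3).trans ?_)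
    rw [kk, ← h1]
    have := (a n).val_lt
    omega

theorem volume_dig_cyl (a : Om) (n : ℕ) : (volume : Measure I) (dig ⁻¹' cyl a n) = 2⁻¹ ^ n := by
  have hk := kk_lt a n
  have hk' : ((kk a n : ℕ) : ℝ) + 1 ≤ 2 ^ n := by exact_mod_cast hk
  have hp : (0 : ℝ) < 2 ^ n := by positivity
  let c : I := ⟨kk a n / 2 ^ n, by positivity, by rw [div_le_one hp]; linarith⟩
  let d : I := ⟨(kk a n + 1) / 2 ^ n, by positivity, by rw [div_le_one hp]; exact hk'⟩
  have hne : ∀ᵐ x : I, x ≠ 1 := by
    rw [ae_iff]
    simp
  have h1 : (dig ⁻¹' cyl a n : Set I) =ᵐ[volume] Set.Ico c d := by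
    filter_upwards [hne] with x hx
    apply propext
    change (x ∈ dig ⁻¹' cyl a n) ↔ (x ∈ Set.Ico c d)
    rw [mem_preimage, mem_cyl, floor_iff a n x hx,
      Nat.floor_eq_iff (mul_nonneg x.2.1 hp.le), mem_Ico, ← Subtype.coe_le_coe,
      ← Subtype.coe_lt_coe]
    change _ ↔ (kk a n : ℝ) / 2 ^ n ≤ x ∧ (x : ℝ) < ((kk a n : ℝ) + 1) / 2 ^ n
    rw [div_le_iff₀ hp, lt_div_iff₀ hp]
  rw [measure_congr h1, unitInterval.volume_Ico]
  have h2 : (d : ℝ) - c = (2⁻¹ : ℝ) ^ n := by
    change ((kk a n : ℝ) + 1) / 2 ^ n - (kk a n : ℝ) / 2 ^ n = _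
    rw [inv_pow]
    field_simp
    ring
  rw [h2, ENNReal.ofReal_pow (by norm_num), ENNReal.ofReal_inv_of_pos (by norm_num)]
  norm_num

theorem dig_mp : MeasurePreserving dig volume mu := by
  refine ⟨dig_meas, ?_⟩
  have : IsProbabilityMeasure (Measure.map dig (volume : Measure I)) :=
    Measure.isProbabilityMeasure_map dig_meas.aemeasurable
  refine ext_of_generate_finite _ cyl_generate cyl_pi ?_ ?_
  · rintro _ ⟨a, n, rfl⟩
    rw [Measure.map_apply dig_meas (cyl_meas a n), volume_dig_cyl, mu_cyl]
  · rw [measure_univ, measure_univ]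

theorem num_mp : MeasurePreserving num mu volume := by
  refine ⟨num_meas, ?_⟩
  rw [← dig_mp.map_eq, Measure.map_map num_meas dig_meas]
  have h1 : num ∘ dig =ᵐ[volume] id := by
    have hne : ∀ᵐ x : I, x ≠ 1 := by
      rw [ae_iff]
      simp
    filter_upwards [hne] with x hx
    exact num_dig hx
  rw [Measure.map_congr h1, Measure.map_id]

theorem dig_num : ∀ᵐ y ∂mu, dig (num y) = y := by
  have hm : MeasurableSet {y | dig (num y) = y} :=
    measurableSet_eq_fun (dig_meas.comp num_meas) measurable_id
  rw [← dig_mp.map_eq]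
  refine (ae_map_iff dig_meas.aemeasurable hm).mpr ?_
  have hne : ∀ᵐ x : I, x ≠ 1 := by
    rw [ae_iff]
    simp
  filter_upwards [hne] with x hx
  rw [num_dig hx]

/-- Interleaving. -/
def join (q : Om × Om) : Om := fun i => if Even i then q.1 (i / 2) else q.2 (i / 2)

/-- The even and the odd digits. -/
def split (y : Om) : Om × Om := (fun i => y (2 * i), fun i => y (2 * i + 1))

theorem split_join (q : Om × Om) : split (join q) = q := by
  apply Prod.ext
  · funext i
    simp [split, join]
  · funext i
    have h1 : ¬ Even (2 * i + 1) := by simp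
    have h2 : (2 * i + 1) / 2 = i := by omega
    simp [split, join, h2]

theorem join_split (y : Om) : join (split y) = y := by
  funext i
  simp only [join, split]
  split_ifs with h
  · obtain ⟨k, rfl⟩ := h
    congr 1
    omega
  · rw [Nat.not_even_iff_odd] at h
    obtain ⟨k, rfl⟩ := h
    congr 1
    omega

theorem split_cont : Continuous split := by unfold split; fun_prop

theorem split_mp : MeasurePreserving split mu (mu.prod mu) := by
  let φ : Om →+ Om × Om := ⟨⟨split, by ext <;> rfl⟩, fun a b => by ext <;> rfl⟩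
  exact AddMonoidHom.measurePreserving (f := φ) split_cont
    (fun q => ⟨join q, split_join q⟩) (by rw [measure_univ, measure_univ])

theorem join_meas : Measurable join := by
  rw [measurable_pi_iff]
  intro i
  unfold join
  split_ifs
  · exact (measurable_pi_apply _).comp measurable_fst
  · exact (measurable_pi_apply _).comp measurable_snd

theorem join_mp : MeasurePreserving join (mu.prod mu) mu := by
  refine ⟨join_meas, ?_⟩
  rw [← split_mp.map_eq, Measure.map_map join_meas split_cont.measurable]
  have : join ∘ split = id := funext join_split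
  rw [this, Measure.map_id]

/-- The two sequences coded by a number. -/
noncomputable def pr (x : I) : Om × Om := split (dig x)

/-- The number coding two sequences. -/
noncomputable def sec (q : Om × Om) : I := num (join q)

theorem pr_mp : MeasurePreserving pr volume (mu.prod mu) := split_mp.comp dig_mp

theorem sec_mp : MeasurePreserving sec (mu.prod mu) volume := num_mp.comp join_mp

theorem pr_sec : ∀ᵐ q ∂(mu.prod mu), pr (sec q) = q := by
  filter_upwards [join_mp.quasiMeasurePreserving.ae dig_num] with q hq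
  rw [pr, sec, hq, split_join]

theorem mu_singleton (c : Om) : mu {c} = 0 := by
  have h1 : ∀ n, mu {c} ≤ (2⁻¹ : ℝ≥0∞) ^ n := by
    intro n
    rw [← mu_cyl c n]
    exact measure_mono (singleton_subset_iff.mpr fun i _ => rfl)
  have h2 : Tendsto (fun n : ℕ => (2⁻¹ : ℝ≥0∞) ^ n) atTop (nhds 0) :=
    ENNReal.tendsto_pow_atTop_nhds_zero_of_lt_one (by
      rw [ENNReal.inv_lt_one]; norm_num)
  exact le_antisymm (ge_of_tendsto' h2 h1) (zero_le)

end Pool.Agent.H97.Theon
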