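import Mathlib
import Pool.Agent.H97.Theon.Iso

set_option autoImplicit false
set_option linter.unusedSectionVars false

/-!
Generic constants.
-/

namespace Pool.Agent.H97.Theon

open MeasureTheory Filter Set

open scoped ENNReal

/-- Restriction along an injection preserves product measures. -/
theorem restrict_mp {ι κ Z : Type*} [Fintype ι] [Fintype κ] [MeasurableSpace Z] (ν : Measure Z)
    [IsProbabilityMeasure ν] (j : κ → ι) (hj : Function.Injective j) :
    MeasurePreserving (fun (x : ι → Z) (k : κ) => x (j k)) (Measure.pi fun _ => ν)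
      (Measure.pi fun _ => ν) := by
  have hm : Measurable (fun (x : ι → Z) (k : κ) => x (j k)) :=
    measurable_pi_iff.mpr fun k => measurable_pi_apply _
  refine ⟨hm, ?_⟩
  symm
  refine Measure.pi_eq fun s hs => ?_
  rw [Measure.map_apply hm (MeasurableSet.univ_pi hs)]
  have h1 : (fun (x : ι → Z) (k : κ) => x (j k)) ⁻¹' Set.univ.pi s =
      Set.univ.pi (Function.extend j s fun _ => Set.univ) := by
    ext x
    simp only [mem_preimage, Set.mem_pi, mem_univ, true_imp_iff]
    constructor
    · intro h i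
      by_cases hi : ∃ k, j k = i
      · obtain ⟨k, rfl⟩ := hi
        rw [hj.extend_apply]
        exact h k
      · rw [Function.extend_apply' _ _ _ hi]
        trivial
    · intro h k
      have := h (j k)
      rwa [hj.extend_apply] at this
  rw [h1, Measure.pi_pi]
  symm
  refine Fintype.prod_of_injective j hj _ _ ?_ ?_
  · intro i hi
    rw [Function.extend_apply' _ _ _ (by simpa using hi), measure_univ]
  · intro k
    rw [hj.extend_apply]

theorem pair_ne {ι Z : Type*} [Fintype ι] [MeasurableSpace Z] [MeasurableEq Z]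
    (ν : Measure Z)
    [IsProbabilityMeasure ν] (hν : ∀ z, ν {z} = 0) {k l : ι} (hkl : k ≠ l) :
    ∀ᵐ x ∂(Measure.pi fun _ : ι => ν), x k ≠ x l := by
  have hj : Function.Injective ![k, l] := by
    intro a b hab
    fin_cases a <;> fin_cases b <;> simp at hab ⊢
    · exact hkl hab
    · exact hkl hab.symm
  have h1 := (measurePreserving_finTwoArrow ν).comp (restrict_mp ν ![k, l] hj)
  have h2 : ∀ᵐ q ∂(ν.prod ν), q.1 ≠ q.2 := by
    have hm : MeasurableSet {q : Z × Z | q.1 = q.2} := measurableSet_eq_fun measurable_fst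
      measurable_snd
    rw [ae_iff]
    simp only [ne_eq, not_not]
    rw [Measure.measure_prod_null hm]
    refine Eventually.of_forall fun z => ?_
    have : Prod.mk z ⁻¹' {q : Z × Z | q.1 = q.2} = {z} := by
      ext w
      simp [eq_comm]
    simp only [this, hν z, Pi.zero_apply]
  exact h1.quasiMeasurePreserving.ae h2

/-- Nonempty finite subsets. -/
abbrev NE (V : Type) : Type := {A : Finset V // A.Nonempty}

/-- The space `[0,1]^{r(V)}`. -/
abbrev Pt (V : Type) : Type := NE V → I

/-- The singleton. -/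
def sg {V : Type} (v : V) : NE V := ⟨{v}, Finset.singleton_nonempty v⟩

theorem sg_inj {V : Type} : Function.Injective (sg (V := V)) := by
  intro a b h
  exact Finset.singleton_injective (congrArg Subtype.val h)

/-- Restriction to a subset. -/
def pul {W V : Type} (α : W ↪ V) (x : Pt V) : Pt W := fun A => x ⟨A.1.map α, A.2.map⟩

variable {κ : Type} [DecidableEq κ]

open Classical in
/-- The point with sorts `s`, values `b` and constants `c`. -/
noncomputable def pt {V : Type} (s : V → κ) (b : V → Om) (c : Pt κ) : Pt V := fun A =>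
  if h : ∃ v, A = sg v then sec (b h.choose, dig (c (sg (s h.choose))))
    else c ⟨A.1.image s, A.2.image s⟩

theorem pt_sg {V : Type} (s : V → κ) (b : V → Om) (c : Pt κ) (v : V) :
    pt s b c (sg v) = sec (b v, dig (c (sg (s v)))) := by
  have h : ∃ w, sg v = sg w := ⟨v, rfl⟩
  have h2 : h.choose = v := (sg_inj h.choose_spec).symm
  rw [pt, dif_pos h, h2]

theorem pt_of_not {V : Type} (s : V → κ) (b : V → Om) (c : Pt κ) {A : NE V}
    (hA : ¬ ∃ v, A = sg v) : pt s b c A = c ⟨A.1.image s, A.2.image s⟩ := by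
  rw [pt, dif_neg hA]

theorem map_sg {W V : Type} (α : W ↪ V) (w : W) :
    (⟨(sg w).1.map α, (sg w).2.map⟩ : NE V) = sg (α w) := by
  apply Subtype.ext
  simp [sg]

theorem map_eq_sg {W V : Type} (α : W ↪ V) {A : NE W} {v : V}
    (h : (⟨A.1.map α, A.2.map⟩ : NE V) = sg v) : ∃ w, A = sg w := by
  have h1 : A.1.map α = {v} := congrArg Subtype.val h
  have h2 : A.1.card = 1 := by
    rw [← Finset.card_map α, h1, Finset.card_singleton]
  obtain ⟨w, hw⟩ := Finset.card_eq_one.mp h2
  exact ⟨w, Subtype.ext hw⟩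

theorem pul_pt {W V : Type} (α : W ↪ V) (s : V → κ) (b : V → Om) (c : Pt κ) :
    pul α (pt s b c) = pt (s ∘ α) (b ∘ α) c := by
  classical
  funext A
  by_cases hA : ∃ w, A = sg w
  · obtain ⟨w, rfl⟩ := hA
    rw [pt_sg]
    change pt s b c ⟨(sg w).1.map α, _⟩ = _
    rw [map_sg, pt_sg]
    rfl
  · rw [pt_of_not _ _ _ hA]
    change pt s b c ⟨A.1.map α, _⟩ = _
    rw [pt_of_not _ _ _ (fun ⟨v, hv⟩ => hA (map_eq_sg α hv))]
    congr 1
    apply Subtype.ext
    simp only [Finset.map_eq_image, Finset.image_image]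

theorem pt_meas {V : Type} (s : V → κ) (c : Pt κ) : Measurable fun b : V → Om => pt s b c := by
  classical
  rw [measurable_pi_iff]
  intro A
  by_cases hA : ∃ w, A = sg w
  · obtain ⟨w, rfl⟩ := hA
    simp only [pt_sg]
    exact sec_mp.measurable.comp ((measurable_pi_apply w).prodMk measurable_const)
  · simp only [pt_of_not _ _ _ hA]
    exact measurable_const

theorem gen [Fintype κ] {n : ℕ} (π : Fin n → κ) (hπ : Function.Injective π)
    {B : Set (Pt (Fin n))} (hB : volume B = 0) :
    ∀ᵐ c : Pt κ, ∀ᵐ y ∂(Measure.pi fun _ : Fin n => mu), pt π y c ∉ B := by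
  classical
  set B' := toMeasurable volume B with hB'
  have hB'm : MeasurableSet B' := measurableSet_toMeasurable _ _
  have hB'0 : volume B' = 0 := by rw [hB', measure_toMeasurable, hB]
  have hBB' : B ⊆ B' := subset_toMeasurable _ _
  -- coordinate maps
  let th : NE (Fin n) → Om × I → I := fun A p =>
    if ∃ v, A = sg v then sec (p.1, dig p.2) else p.2
  have hth : ∀ A, MeasurePreserving (th A) (mu.prod volume) volume := by
    intro A
    by_cases hA : ∃ v, A = sg v
    · have h1 : th A = fun p => sec (p.1, dig p.2) := by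
        funext p; simp only [th, if_pos hA]
      rw [h1]
      exact sec_mp.comp ((MeasurePreserving.id mu).prod dig_mp)
    · have h1 : th A = Prod.snd := by
        funext p; simp only [th, if_neg hA]
      rw [h1]
      exact measurePreserving_snd
  have h1 : MeasurePreserving (fun (z : NE (Fin n) → Om × I) A => th A (z A))
      (Measure.pi fun _ => mu.prod volume) (Measure.pi fun _ => volume) :=
    measurePreserving_pi _ _ hth
  have h2 : MeasurePreserving
      (fun (q : (NE (Fin n) → Om) × (NE (Fin n) → I)) A => th A (q.1 A, q.2 A))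
      ((Measure.pi fun _ => mu).prod (Measure.pi fun _ => volume))
      (Measure.pi fun _ => volume) :=
    h1.comp (measurePreserving_arrowProdEquivProdArrow Om I (NE (Fin n)) (fun _ => mu)
      (fun _ => volume)).symm
  have h3 : MeasurePreserving
      (fun (q : (NE (Fin n) → I) × (NE (Fin n) → Om)) A => th A (q.2 A, q.1 A))
      ((Measure.pi fun _ => volume).prod (Measure.pi fun _ => mu))
      (Measure.pi fun _ => volume) :=
    h2.comp Measure.measurePreserving_swap
  have hB'' : ∀ᵐ x ∂(Measure.pi fun _ : NE (Fin n) => (volume : Measure I)), x ∉ B' := by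
    rw [ae_iff]
    simp only [not_not, Set.ofPred_mem_eq]
    exact hB'0
  have h4 := Measure.ae_ae_of_ae_prod (h3.quasiMeasurePreserving.ae hB'')
  have h5 : MeasurePreserving (fun (c : Pt κ) (A : NE (Fin n)) => c ⟨A.1.map ⟨π, hπ⟩, A.2.map⟩)
      (Measure.pi fun _ => volume) (Measure.pi fun _ => volume) := by
    refine restrict_mp (volume : Measure I)
      (fun A : NE (Fin n) => (⟨A.1.map ⟨π, hπ⟩, A.2.map⟩ : NE κ)) ?_
    intro A A' h
    exact Subtype.ext (Finset.map_injective _ (congrArg Subtype.val h))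
  have h6 := h5.quasiMeasurePreserving.ae h4
  have h7 : ∀ᵐ c : Pt κ, ∀ᵐ y' ∂(Measure.pi fun _ : NE (Fin n) => mu),
      (fun A => th A (y' A, c ⟨A.1.map ⟨π, hπ⟩, A.2.map⟩)) ∉ B' := h6
  filter_upwards [h7] with c hc
  have h8 : MeasurePreserving (fun (y' : NE (Fin n) → Om) (v : Fin n) => y' (sg v))
      (Measure.pi fun _ => mu) (Measure.pi fun _ => mu) := restrict_mp mu sg sg_inj
  have h9 : ∀ y' : NE (Fin n) → Om, (fun A => th A (y' A, c ⟨A.1.map ⟨π, hπ⟩, A.2.map⟩)) =
      pt π (fun v => y' (sg v)) c := by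
    intro y'
    funext A
    by_cases hA : ∃ v, A = sg v
    · obtain ⟨v, rfl⟩ := hA
      rw [pt_sg]
      have : ∃ w, sg v = sg w := ⟨v, rfl⟩
      simp only [th, if_pos this, map_sg]
      rfl
    · rw [pt_of_not _ _ _ hA]
      simp only [th, if_neg hA]
      congr 1
      apply Subtype.ext
      simp only [Finset.map_eq_image]
      rfl
  have h10 : ∀ᵐ y ∂(Measure.pi fun _ : Fin n => mu), pt π y c ∉ B' := by
    rw [← h8.map_eq]
    refine (ae_map_iff h8.measurable.aemeasurable ?_).mpr ?_
    · exact (pt_meas π c) hB'm.compl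
    · filter_upwards [hc] with y' hy'
      rwa [h9] at hy'
  filter_upwards [h10] with y hy hy'
  exact hy (hBB' hy')

theorem A_ae [Fintype κ] : ∀ᵐ c : Pt κ, ∀ᵐ b ∂mu, ∀ k,
    pr (sec (b, dig (c (sg k)))) = (b, dig (c (sg k))) := by
  have h1 : ∀ k, ∀ᵐ c : Pt κ, ∀ᵐ b ∂mu, pr (sec (b, dig (c (sg k)))) = (b, dig (c (sg k))) := by
    intro k
    have h2 := Measure.ae_ae_of_ae_prod
      ((Measure.measurePreserving_swap (μ := mu) (ν := mu)).quasiMeasurePreserving.ae pr_sec)
    have h3 : MeasurePreserving (fun c : Pt κ => dig (c (sg k))) volume mu :=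
      dig_mp.comp (measurePreserving_eval (fun _ : NE κ => (volume : Measure I)) (sg k))
    exact h3.quasiMeasurePreserving.ae h2
  have h4 : ∀ᵐ c : Pt κ, ∀ k, ∀ᵐ b ∂mu, pr (sec (b, dig (c (sg k)))) = (b, dig (c (sg k))) :=
    ae_all_iff.mpr h1
  filter_upwards [h4] with c hc
  exact ae_all_iff.mpr hc

theorem digs_mp [Fintype κ] : MeasurePreserving (fun (c : Pt κ) (k : κ) => dig (c (sg k)))
    volume (Measure.pi fun _ => mu) := by
  have h1 : MeasurePreserving (fun (c : Pt κ) (k : κ) => c (sg k))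
      volume (Measure.pi fun _ => volume) := restrict_mp (volume : Measure I) sg sg_inj
  have h2 : MeasurePreserving (fun (c : κ → I) (k : κ) => dig (c k))
      (Measure.pi fun _ => volume) (Measure.pi fun _ => mu) :=
    measurePreserving_pi _ _ fun _ => dig_mp
  exact h2.comp h1

theorem distinct_ae [Fintype κ] : ∀ᵐ c : Pt κ, ∀ k l, k ≠ l →
    dig (c (sg k)) ≠ dig (c (sg l)) := by
  rw [ae_all_iff]; intro k
  rw [ae_all_iff]; intro l
  by_cases hkl : k = l
  · exact Eventually.of_forall fun c h => absurd hkl h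
  · filter_upwards [(digs_mp (κ := κ)).quasiMeasurePreserving.ae
      (pair_ne mu mu_singleton hkl)] with c hc _ using hc

/-- The values of the vertices. -/
noncomputable def vals {V : Type} (x : Pt V) (v : V) : Om := (pr (x (sg v))).1

theorem vals_mp {V : Type} [Fintype V] [DecidableEq V] :
    MeasurePreserving (vals (V := V)) volume (Measure.pi fun _ => mu) := by
  have h1 : MeasurePreserving (fun (c : Pt V) (k : V) => c (sg k))
      volume (Measure.pi fun _ => volume) := restrict_mp (volume : Measure I) sg sg_inj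
  have h2 : MeasurePreserving (fun (c : V → I) (k : V) => (pr (c k)).1)
      (Measure.pi fun _ => volume) (Measure.pi fun _ => mu) :=
    measurePreserving_pi _ _ fun _ => measurePreserving_fst.comp pr_mp
  exact h2.comp h1

/-- Six coordinates from two triples. -/
def six (t t' : Tr) : Fin 6 → Om := ![t.1, t.2.1, t.2.2, t'.1, t'.2.1, t'.2.2]

/-- Four coordinates from a triple and a sequence. -/
def quad (t : Tr) (b : Om) : Fin 4 → Om := ![t.1, t.2.1, t.2.2, b]

theorem six_mp : MeasurePreserving (fun q : Tr × Tr => six q.1 q.2)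
    ((mu.prod (mu.prod mu)).prod (mu.prod (mu.prod mu))) (Measure.pi fun _ => mu) := by
  have hm : Measurable (fun q : Tr × Tr => six q.1 q.2) := by
    rw [measurable_pi_iff]
    intro i
    fin_cases i <;> simp [six] <;> fun_prop
  refine ⟨hm, ?_⟩
  symm
  refine Measure.pi_eq fun s hs => ?_
  rw [Measure.map_apply hm (MeasurableSet.univ_pi hs)]
  have h1 : (fun q : Tr × Tr => six q.1 q.2) ⁻¹' Set.univ.pi s =
      (s 0 ×ˢ (s 1 ×ˢ s 2)) ×ˢ (s 3 ×ˢ (s 4 ×ˢ s 5)) := by
    ext q
    simp only [mem_preimage, Set.mem_pi, mem_univ, true_imp_iff, mem_prod, Fin.forall_fin_succ, six]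
    simp
    tauto
  rw [h1, Measure.prod_prod, Measure.prod_prod, Measure.prod_prod, Measure.prod_prod,
    Measure.prod_prod, Fin.prod_univ_six]
  ring

theorem quad_mp : MeasurePreserving (fun q : Tr × Om => quad q.1 q.2)
    ((mu.prod (mu.prod mu)).prod mu) (Measure.pi fun _ => mu) := by
  have hm : Measurable (fun q : Tr × Om => quad q.1 q.2) := by
    rw [measurable_pi_iff]
    intro i
    fin_cases i <;> simp [quad] <;> fun_prop
  refine ⟨hm, ?_⟩
  symm
  refine Measure.pi_eq fun s hs => ?_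
  rw [Measure.map_apply hm (MeasurableSet.univ_pi hs)]
  have h1 : (fun q : Tr × Om => quad q.1 q.2) ⁻¹' Set.univ.pi s =
      (s 0 ×ˢ (s 1 ×ˢ s 2)) ×ˢ s 3 := by
    ext q
    simp only [mem_preimage, Set.mem_pi, mem_univ, true_imp_iff, mem_prod, Fin.forall_fin_succ, quad]
    simp
    tauto
  rw [h1, Measure.prod_prod, Measure.prod_prod, Measure.prod_prod, Fin.prod_univ_four]
  ring

theorem agr_meas (n : ℕ∞) {α : Type*} [MeasurableSpace α] {f f' : α → Om} (hf : Measurable f)
    (hf' : Measurable f') : MeasurableSet {x | n ≤ agr (f x) (f' x)} := by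
  have : {x | n ≤ agr (f x) (f' x)} = ⋂ i : {i : ℕ // (i : ℕ∞) < n}, {x | f x i = f' x i} := by
    ext x
    simp [le_agr, Agree]
  rw [this]
  refine MeasurableSet.iInter fun i => ?_
  exact measurableSet_eq_fun ((measurable_pi_apply _).comp hf) ((measurable_pi_apply _).comp hf')

theorem D_le_meas (n : ℕ∞) (r : Fin 3) : MeasurableSet {t : Tr | n ≤ D r t} :=
  agr_meas n (measurable_fst.add ((h_meas r).comp (measurable_fst.comp measurable_snd)))
    (measurable_snd.comp measurable_snd)

theorem D_top_null (r : Fin 3) : (mu.prod (mu.prod mu)) {t : Tr | D r t = ⊤} = 0 := by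
  have h0 : {t : Tr | D r t = ⊤} = {t : Tr | (⊤ : ℕ∞) ≤ D r t} := by
    ext t; simp
  rw [h0, Measure.measure_prod_null (D_le_meas ⊤ r)]
  refine Eventually.of_forall fun x => ?_
  change (mu.prod mu) (Prod.mk x ⁻¹' {t : Tr | (⊤ : ℕ∞) ≤ D r t}) = 0
  rw [Measure.measure_prod_null (measurable_prodMk_left (D_le_meas ⊤ r))]
  refine Eventually.of_forall fun y => ?_
  have h1 : Prod.mk y ⁻¹' (Prod.mk x ⁻¹' {t : Tr | (⊤ : ℕ∞) ≤ D r t}) ⊆ {x + h r y} := by
    intro z hz
    have h2 : (⊤ : ℕ∞) ≤ D r (x, (y, z)) := hz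
    rw [le_D] at h2
    rw [mem_singleton_iff]
    funext i
    exact (h2 i (WithTop.coe_lt_top i)).symm
  exact measure_mono_null h1 (mu_singleton _)

theorem D_le_D_meas (r r' : Fin 3) : MeasurableSet {q : Tr × Tr | D r q.1 ≤ D r' q.2} := by
  have : {q : Tr × Tr | D r q.1 ≤ D r' q.2} =
      ⋂ n : ℕ, ((fun q : Tr × Tr => q.1) ⁻¹' {t | (n : ℕ∞) ≤ D r t})ᶜ ∪
        ((fun q : Tr × Tr => q.2) ⁻¹' {t | (n : ℕ∞) ≤ D r' t}) := by
    ext q
    simp only [mem_ofPred_eq, mem_iInter, mem_union, mem_compl_iff, mem_preimage]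
    rw [← ENat.forall_natCast_le_iff_le]
    exact forall_congr' fun n => imp_iff_not_or
  rw [this]
  exact MeasurableSet.iInter fun n => ((measurable_fst (D_le_meas n r)).compl).union
    (measurable_snd (D_le_meas n r'))

theorem S_meas (n : ℕ) : Measurable (S n) := by
  unfold S
  exact Finset.measurable_sum _ fun i _ => measurable_pi_apply i

theorem fP_null (r : Fin 3) :
    NullMeasurableSet {q : Tr × Om | fP (D r q.1) q.2} ((mu.prod (mu.prod mu)).prod mu) := by
  have hm : MeasurableSet (⋃ n : ℕ, {q : Tr × Om | D r q.1 = n ∧ S n q.2 = 1}) := by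
    refine MeasurableSet.iUnion fun n => ?_
    have h1 : {q : Tr × Om | D r q.1 = n ∧ S n q.2 = 1} =
        ((Prod.fst ⁻¹' {t | (n : ℕ∞) ≤ D r t}) ∩ (Prod.fst ⁻¹' {t | ((n + 1 : ℕ) : ℕ∞) ≤ D r t})ᶜ) ∩
          (Prod.snd ⁻¹' {b | S n b = 1}) := by
      ext q
      simp only [mem_ofPred_eq, mem_inter_iff, mem_preimage, mem_compl_iff, not_le]
      refine and_congr ?_ Iff.rfl
      constructor
      · intro h
        rw [h]
        exact ⟨le_rfl, by exact_mod_cast Nat.lt_succ_self n⟩
      · rintro ⟨h1, h2⟩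
        refine le_antisymm ?_ h1
        have h3 : ((n + 1 : ℕ) : ℕ∞) = (n : ℕ∞) + 1 := by push_cast; rfl
        rw [h3] at h2
        exact Order.le_of_lt_add_one h2
    rw [h1]
    exact ((measurable_fst (D_le_meas n r)).inter (measurable_fst (D_le_meas _ r)).compl).inter
      (measurable_snd ((S_meas n) (measurableSet_singleton 1)))
  refine hm.nullMeasurableSet.congr ?_
  have h2 : ∀ᵐ q ∂((mu.prod (mu.prod mu)).prod mu), D r q.1 ≠ ⊤ := by
    have h3 : ∀ᵐ t ∂(mu.prod (mu.prod mu)), D r t ≠ ⊤ := by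
      rw [ae_iff]
      simpa using D_top_null r
    exact measurePreserving_fst.quasiMeasurePreserving.ae h3
  filter_upwards [h2] with q hq
  apply propext
  change (q ∈ ⋃ n : ℕ, {q : Tr × Om | D r q.1 = n ∧ S n q.2 = 1}) ↔ fP (D r q.1) q.2
  obtain ⟨n, hn⟩ := ENat.ne_top_iff_exists.mp hq
  simp only [mem_iUnion, mem_ofPred_eq]
  constructor
  · rintro ⟨m, hm1, hm2⟩
    rw [hm1]
    simpa [fP, U] using hm2
  · intro h
    refine ⟨n, hn.symm, ?_⟩
    rw [← hn] at h
    simpa [fP, U] using h

end Pool.Agent.H97.Theon
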