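import Mathlib

set_option autoImplicit false
set_option linter.unusedSectionVars false

/-!
Finite structures satisfying the universal theory of a structure embed into it (finite relational
languages).
-/

namespace Pool.Agent.H97.Theon.MT

open FirstOrder Language BoundedFormula Structure

universe u v w w'

variable {L : FirstOrder.Language.{u, v}} {α : Type} {n : ℕ}

theorem isQF_foldr (l : List (L.BoundedFormula α n)) (hl : ∀ φ ∈ l, φ.IsQF) :
    (l.foldr (· ⊓ ·) ⊤).IsQF := by
  induction l with
  | nil => exact IsQF.top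
  | cons φ l ih =>
    rw [List.foldr_cons]
    exact (hl φ (by simp)).inf (ih fun ψ hψ => hl ψ (by simp [hψ]))

theorem isQF_iInf {β : Type*} [Finite β] {f : β → L.BoundedFormula α n} (hf : ∀ b, (f b).IsQF) :
    (BoundedFormula.iInf f).IsQF := by
  unfold BoundedFormula.iInf
  refine isQF_foldr _ fun φ hφ => ?_
  rw [List.mem_map] at hφ
  obtain ⟨b, -, rfl⟩ := hφ
  exact hf b

theorem isUniversal_alls {n : ℕ} {φ : L.BoundedFormula α n} (h : φ.IsUniversal) :
    φ.alls.IsUniversal := by
  induction n with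
  | zero => exact h
  | succ n ih => exact ih h.all

variable [L.IsRelational] [Finite (Σ n, L.Relations n)]
variable {M : Type w} {N : Type w'} [L.Structure M] [L.Structure N] [Finite M]

open Classical in
/-- The literal saying how a relation behaves at a tuple. -/
noncomputable def lit {m : ℕ} (e : M ≃ Fin m)
    (p : Σ q : (Σ n, L.Relations n), (Fin q.1 → Fin m)) : L.BoundedFormula Empty m :=
  if RelMap p.1.2 (e.symm ∘ p.2) then p.1.2.boundedFormula (fun i => Term.var (Sum.inr (p.2 i)))
    else (p.1.2.boundedFormula (fun i => Term.var (Sum.inr (p.2 i)))).not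

open Classical in
/-- The literal saying that two elements are distinct. -/
noncomputable def dis (L : FirstOrder.Language.{u, v}) {m : ℕ} (p : Fin m × Fin m) :
    L.BoundedFormula Empty m :=
  if p.1 = p.2 then ⊤ else
    ((Term.var (Sum.inr p.1)).bdEqual (Term.var (Sum.inr p.2))).not

theorem lit_qf {m : ℕ} (e : M ≃ Fin m) (p : Σ q : (Σ n, L.Relations n), (Fin q.1 → Fin m)) :
    (lit e p).IsQF := by
  unfold lit
  split_ifs
  · exact p.1.2.isQF _
  · exact (p.1.2.isQF _).not

theorem dis_qf {m : ℕ} (p : Fin m × Fin m) : (dis L p).IsQF := by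
  unfold dis
  split_ifs
  · exact IsQF.top
  · exact (IsAtomic.equal _ _).isQF.not

/-- The diagram. -/
noncomputable def diag {m : ℕ} (e : M ≃ Fin m) : L.BoundedFormula Empty m :=
  BoundedFormula.iInf (lit e) ⊓ BoundedFormula.iInf (dis L)

theorem realize_lit {m : ℕ} (e : M ≃ Fin m) (p : Σ q : (Σ n, L.Relations n), (Fin q.1 → Fin m))
    (xs : Fin m → N) (v : Empty → N) :
    (lit e p).Realize v xs ↔ (RelMap p.1.2 (e.symm ∘ p.2) ↔ RelMap p.1.2 (xs ∘ p.2)) := by
  unfold lit
  split_ifs with h
  · simp only [realize_rel, Term.realize_var, Sum.elim_inr, h, true_iff]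
    rfl
  · simp only [realize_not, realize_rel, Term.realize_var, Sum.elim_inr, h, false_iff]
    rfl

theorem realize_dis {m : ℕ} (p : Fin m × Fin m) (xs : Fin m → N) (v : Empty → N) :
    (dis L p).Realize v xs ↔ (xs p.1 = xs p.2 → p.1 = p.2) := by
  unfold dis
  split_ifs with h
  · simp [h]
  · simp [realize_bdEqual, h]

theorem realize_diag {m : ℕ} (e : M ≃ Fin m) (xs : Fin m → N) (v : Empty → N) :
    (diag (L := L) e).Realize v xs ↔
      (∀ (n : ℕ) (R : L.Relations n) (t : Fin n → Fin m),
        (RelMap R (e.symm ∘ t) ↔ RelMap R (xs ∘ t))) ∧ Function.Injective xs := by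
  unfold diag
  simp only [realize_inf, realize_iInf, realize_lit, realize_dis]
  constructor
  · rintro ⟨h1, h2⟩
    exact ⟨fun n R t => h1 ⟨⟨n, R⟩, t⟩, fun a b hab => h2 (a, b) hab⟩
  · rintro ⟨h1, h2⟩
    exact ⟨fun p => h1 p.1.1 p.1.2 p.2, fun p hp => h2 hp⟩

theorem embed (h : ∀ φ : L.Sentence, φ.IsUniversal → N ⊨ φ → M ⊨ φ) : Nonempty (M ↪[L] N) := by
  obtain ⟨m, ⟨e⟩⟩ := Finite.exists_equiv_fin M
  set φ : L.Sentence := ((diag (L := L) e).not).alls with hφ
  have hU : φ.IsUniversal := by
    rw [hφ]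
    exact isUniversal_alls (((isQF_iInf (lit_qf e)).inf (isQF_iInf dis_qf)).not.isUniversal)
  have hM : ¬ M ⊨ φ := by
    intro hM
    have h1 : ∀ xs : Fin m → M, ((diag (L := L) e).not).Realize default xs :=
      realize_alls.mp hM
    have h2 := h1 e.symm
    rw [realize_not, realize_diag] at h2
    exact h2 ⟨fun n R t => Iff.rfl, e.symm.injective⟩
  have hN : ¬ N ⊨ φ := fun hN => hM (h φ hU hN)
  have hN' : ¬ ∀ xs : Fin m → N, ((diag (L := L) e).not).Realize default xs :=
    fun h1 => hN (realize_alls.mpr h1)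
  push Not at hN'
  obtain ⟨xs, hxs⟩ := hN'
  rw [realize_not, not_not, realize_diag] at hxs
  refine ⟨⟨⟨xs ∘ e, hxs.2.comp e.injective⟩, ?_, ?_⟩⟩
  · intro n f
    exact isEmptyElim f
  · intro n R x
    have h3 := hxs.1 n R (e ∘ x)
    have h4 : e.symm ∘ (e ∘ x) = x := by
      funext i; simp
    rw [h4] at h3
    exact h3.symm

end Pool.Agent.H97.Theon.MT
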